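import Pool.Agent.H770.GS.TF

/-!
Project TF, numerical bounds for `zt`, `ch 0` and `vv` (helper824).
-/

set_option autoImplicit false

open MeasureTheory Set intervalIntegral Filter Topology

namespace Pool.Agent.H824.TF14

open Pool.Agent.H770.GS

theorem int_poly (a b c d e : ℝ) :
    ∫ u in (0:ℝ)..1, (a + b * u ^ 2 + c * u ^ 4 + d * u ^ 6 + e * u ^ 8) =
      a + b / 3 + c / 5 + d / 7 + e / 9 := by
  have h : ∀ x : ℝ, HasDerivAt
      (fun u => a * u + b / 3 * u ^ 3 + c / 5 * u ^ 5 + d / 7 * u ^ 7 + e / 9 * u ^ 9)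
      (a + b * x ^ 2 + c * x ^ 4 + d * x ^ 6 + e * x ^ 8) x := by
    intro x
    have h1 := (hasDerivAt_id' x).const_mul a
    have h3 := (hasDerivAt_pow 3 x).const_mul (b / 3)
    have h5 := (hasDerivAt_pow 5 x).const_mul (c / 5)
    have h7 := (hasDerivAt_pow 7 x).const_mul (d / 7)
    have h9 := (hasDerivAt_pow 9 x).const_mul (e / 9)
    refine ((((h1.add h3).add h5).add h7).add h9).congr_deriv ?_
    push_cast
    ring
  rw [intervalIntegral.integral_eq_sub_of_hasDerivAt (fun x _ => h x)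
    (Continuous.intervalIntegrable (by fun_prop) _ _)]
  ring

theorem exp_low {x : ℝ} (h0 : 0 ≤ x) (h1 : x ≤ 1) :
    1 - x + x ^ 2 / 2 - x ^ 3 / 6 ≤ Real.exp (-x) := by
  have h := Real.exp_bound (x := -x) (by rwa [abs_neg, abs_of_nonneg h0]) (n := 5) (by norm_num)
  rw [abs_neg, abs_of_nonneg h0] at h
  simp only [Finset.sum_range_succ, Finset.sum_range_zero, Nat.factorial] at h
  have h2 := (abs_le.1 h).1
  norm_num at h2
  have h3 : 0 ≤ x ^ 4 := by positivity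
  have h4 : x ^ 5 ≤ x ^ 4 := by
    calc x ^ 5 = x ^ 4 * x := by ring
      _ ≤ x ^ 4 * 1 := by gcongr
      _ = x ^ 4 := mul_one _
  nlinarith

theorem exp_up {x : ℝ} (h0 : 0 ≤ x) (h1 : x ≤ 1) :
    Real.exp (-x) ≤ 1 - x + x ^ 2 / 2 := by
  have h := Real.exp_bound (x := -x) (by rwa [abs_neg, abs_of_nonneg h0]) (n := 4) (by norm_num)
  rw [abs_neg, abs_of_nonneg h0] at h
  simp only [Finset.sum_range_succ, Finset.sum_range_zero, Nat.factorial] at h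
  have h2 := (abs_le.1 h).2
  norm_num at h2
  have h3 : 0 ≤ x ^ 3 := by positivity
  have h4 : x ^ 4 ≤ x ^ 3 := by
    calc x ^ 4 = x ^ 3 * x := by ring
      _ ≤ x ^ 3 * 1 := by gcongr
      _ = x ^ 3 := mul_one _
  nlinarith

theorem xb {ε u : ℝ} (h0 : 0 ≤ ε) (h1 : ε ≤ 1 / 2) (hu : u ∈ Icc (0:ℝ) 1) :
    0 ≤ ε * u ^ 2 ∧ ε * u ^ 2 ≤ 1 := by
  refine ⟨by positivity, ?_⟩
  have h2 : u ^ 2 ≤ 1 := by
    have := hu.1
    have := hu.2
    nlinarith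
  have h3 : 0 ≤ u ^ 2 := sq_nonneg u
  nlinarith

theorem zt_low {ε : ℝ} (h0 : 0 ≤ ε) (h1 : ε ≤ 1 / 2) :
    1 - ε / 3 + ε ^ 2 / 10 - ε ^ 3 / 42 ≤ zt ε := by
  have h := int_poly 1 (-ε) (ε ^ 2 / 2) (-(ε ^ 3 / 6)) 0
  have h2 : ∫ u in (0:ℝ)..1, (1 + -ε * u ^ 2 + ε ^ 2 / 2 * u ^ 4 + -(ε ^ 3 / 6) * u ^ 6 +
      0 * u ^ 8) ≤ zt ε := by
    unfold zt
    refine intervalIntegral.integral_mono_on zero_le_one
      (Continuous.intervalIntegrable (by fun_prop) _ _)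
      (Continuous.intervalIntegrable (by fun_prop) _ _) (fun u hu => ?_)
    have := exp_low (xb h0 h1 hu).1 (xb h0 h1 hu).2
    linarith
  linarith

theorem zt_up {ε : ℝ} (h0 : 0 ≤ ε) (h1 : ε ≤ 1 / 2) :
    zt ε ≤ 1 - ε / 3 + ε ^ 2 / 10 := by
  have h := int_poly 1 (-ε) (ε ^ 2 / 2) 0 0
  have h2 : zt ε ≤ ∫ u in (0:ℝ)..1, (1 + -ε * u ^ 2 + ε ^ 2 / 2 * u ^ 4 + 0 * u ^ 6 +
      0 * u ^ 8) := by
    unfold zt
    refine intervalIntegral.integral_mono_on zero_le_one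
      (Continuous.intervalIntegrable (by fun_prop) _ _)
      (Continuous.intervalIntegrable (by fun_prop) _ _) (fun u hu => ?_)
    have := exp_up (xb h0 h1 hu).1 (xb h0 h1 hu).2
    linarith
  linarith

theorem ck_eq (ε : ℝ) : ck ε 0 = ∫ u in (0:ℝ)..1, u ^ 2 * Real.exp (-(ε * u ^ 2)) := by
  unfold ck
  simp

theorem ch_eq (ε : ℝ) :
    ch ε 0 = ∫ u in (0:ℝ)..1, u ^ 2 * (1 - u ^ 2) * Real.exp (-(ε * u ^ 2)) := by
  unfold ch
  simp

theorem ck_low {ε : ℝ} (h0 : 0 ≤ ε) (h1 : ε ≤ 1 / 2) :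
    1 / 3 - ε / 5 + ε ^ 2 / 14 - ε ^ 3 / 54 ≤ ck ε 0 := by
  have h := int_poly 0 1 (-ε) (ε ^ 2 / 2) (-(ε ^ 3 / 6))
  have h2 : ∫ u in (0:ℝ)..1, (0 + 1 * u ^ 2 + -ε * u ^ 4 + ε ^ 2 / 2 * u ^ 6 +
      -(ε ^ 3 / 6) * u ^ 8) ≤ ck ε 0 := by
    rw [ck_eq]
    refine intervalIntegral.integral_mono_on zero_le_one
      (Continuous.intervalIntegrable (by fun_prop) _ _)
      (Continuous.intervalIntegrable (by fun_prop) _ _) (fun u hu => ?_)
    have h3 := exp_low (xb h0 h1 hu).1 (xb h0 h1 hu).2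
    have h4 := mul_le_mul_of_nonneg_left h3 (sq_nonneg u)
    refine le_trans (le_of_eq ?_) h4
    ring
  linarith

theorem ck_up {ε : ℝ} (h0 : 0 ≤ ε) (h1 : ε ≤ 1 / 2) :
    ck ε 0 ≤ 1 / 3 - ε / 5 + ε ^ 2 / 14 := by
  have h := int_poly 0 1 (-ε) (ε ^ 2 / 2) 0
  have h2 : ck ε 0 ≤ ∫ u in (0:ℝ)..1, (0 + 1 * u ^ 2 + -ε * u ^ 4 + ε ^ 2 / 2 * u ^ 6 +
      0 * u ^ 8) := by
    rw [ck_eq]
    refine intervalIntegral.integral_mono_on zero_le_one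
      (Continuous.intervalIntegrable (by fun_prop) _ _)
      (Continuous.intervalIntegrable (by fun_prop) _ _) (fun u hu => ?_)
    have h3 := exp_up (xb h0 h1 hu).1 (xb h0 h1 hu).2
    have h4 := mul_le_mul_of_nonneg_left h3 (sq_nonneg u)
    refine h4.trans (le_of_eq ?_)
    ring
  linarith

theorem ch_low (ε : ℝ) : 2 / 15 * Real.exp (-(3 * ε / 7)) ≤ ch ε 0 := by
  obtain ⟨E, hE⟩ : ∃ E, E = Real.exp (-(3 * ε / 7)) := ⟨_, rfl⟩
  have hE0 : 0 < E := hE ▸ Real.exp_pos _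
  rw [← hE]
  have h := int_poly 0 (E * (1 + 3 * ε / 7)) (-(E * (1 + 3 * ε / 7)) - E * ε) (E * ε) 0
  have h2 : ∫ u in (0:ℝ)..1, (0 + E * (1 + 3 * ε / 7) * u ^ 2 +
      (-(E * (1 + 3 * ε / 7)) - E * ε) * u ^ 4 + E * ε * u ^ 6 + 0 * u ^ 8) ≤ ch ε 0 := by
    rw [ch_eq]
    refine intervalIntegral.integral_mono_on zero_le_one
      (Continuous.intervalIntegrable (by fun_prop) _ _)
      (Continuous.intervalIntegrable (by fun_prop) _ _) (fun u hu => ?_)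
    have h3 : E * (1 - ε * (u ^ 2 - 3 / 7)) ≤ Real.exp (-(ε * u ^ 2)) := by
      have h5 := Real.add_one_le_exp (-(ε * (u ^ 2 - 3 / 7)))
      have h6 : Real.exp (-(ε * u ^ 2)) = E * Real.exp (-(ε * (u ^ 2 - 3 / 7))) := by
        rw [hE, ← Real.exp_add]
        congr 1
        ring
      rw [h6]
      refine mul_le_mul_of_nonneg_left ?_ hE0.le
      linarith
    have h7 : 0 ≤ u ^ 2 * (1 - u ^ 2) := by
      have := hu.1
      have := hu.2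
      have : u ^ 2 ≤ 1 := by nlinarith
      exact mul_nonneg (sq_nonneg u) (by linarith)
    have h4 := mul_le_mul_of_nonneg_left h3 h7
    refine le_trans (le_of_eq ?_) h4
    ring
  linarith

theorem tf14 : S_TF14 := by
  intro ε h0 h1
  have e0 : 0 ≤ ε := by linarith
  have z1 := zt_low e0 h1
  have z2 := zt_up e0 h1
  have c1 := ck_low e0 h1
  have c2 := ck_up e0 h1
  have e2 : 0 ≤ ε ^ 2 := sq_nonneg ε
  have e3 : 0 ≤ ε ^ 3 := by positivity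
  have e4 : 0 ≤ ε ^ 4 := by positivity
  have e32 : ε ^ 3 ≤ ε ^ 2 / 2 := by
    have : ε ^ 3 = ε ^ 2 * ε := by ring
    rw [this]
    nlinarith
  have e21 : ε ^ 2 ≤ ε / 2 := by nlinarith
  have hz : 0 < zt ε := by linarith
  refine ⟨z1, z2, ch_low ε, ?_, ?_⟩
  · unfold vv
    rw [le_div_iff₀ hz]
    have h2 : (1 / 3 - 4 / 45 * ε) * zt ε ≤ (1 / 3 - 4 / 45 * ε) * (1 - ε / 3 + ε ^ 2 / 10) :=
      mul_le_mul_of_nonneg_left z2 (by linarith)
    have h3 : (1 / 3 - 4 / 45 * ε) * (1 - ε / 3 + ε ^ 2 / 10) =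
        1 / 3 - ε / 5 + 17 / 270 * ε ^ 2 - 4 / 450 * ε ^ 3 := by ring
    linarith
  · unfold vv
    rw [div_le_iff₀ hz]
    have h2 : (1 / 3 - 0.078 * ε) * (1 - ε / 3 + ε ^ 2 / 10 - ε ^ 3 / 42) ≤
        (1 / 3 - 0.078 * ε) * zt ε :=
      mul_le_mul_of_nonneg_left z1 (by linarith)
    have h3 : (1 / 3 - 0.078 * ε) * (1 - ε / 3 + ε ^ 2 / 10 - ε ^ 3 / 42) =
        1 / 3 - (1 / 9 + 0.078) * ε + (1 / 30 + 0.026) * ε ^ 2 - (1 / 126 + 0.0078) * ε ^ 3 +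
          0.078 / 42 * ε ^ 4 := by ring
    linarith

end Pool.Agent.H824.TF14
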