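import Pool.Agent.H979.BK.Stm

/-! # BK B1: mean of linear statistics (subtask of helper979's proof of MP_1e2081_pr) -/

open Filter Topology Finset Pool.Agent.H979.BK

namespace Pool.Agent.H824

variable {d n : ℕ}

theorem bk_mem_sel {k : ℕ} {u : Ball d n → Fin d} {A : Finset (Ball d n)} :
    A ∈ sel k u ↔ ∀ i, (A.filter fun b => u b = i).card = k := by
  unfold sel
  rw [mem_filter]
  exact ⟨fun h => h.2, fun h => ⟨mem_univ _, h⟩⟩

theorem bk_sel_nonempty {k : ℕ} (hk : k ≤ n) {u : Ball d n → Fin d} (hu : Bal u) :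
    (sel k u).Nonempty := by
  have h : ∀ i : Fin d, ∃ B ⊆ (univ.filter fun b => u b = i), B.card = k := fun i =>
    Finset.exists_subset_card_eq (by rw [hu i]; exact hk)
  choose B hB hc using h
  refine ⟨univ.filter fun b => b ∈ B (u b), bk_mem_sel.2 fun i => ?_⟩
  have e : ((univ.filter fun b => b ∈ B (u b)).filter fun b => u b = i) = B i := by
    ext b
    simp only [mem_filter, mem_univ, true_and]
    constructor
    · rintro ⟨h1, h2⟩
      rw [← h2]
      exact h1
    · intro h1
      have h2 := (mem_filter.1 (hB i h1)).2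
      exact ⟨by rw [h2]; exact h1, h2⟩
  rw [e, hc i]

theorem bk_move_bal {k : ℕ} {u : Ball d n → Fin d} (hu : Bal u) (σ : Equiv.Perm (Fin d))
    {A : Finset (Ball d n)} (hA : A ∈ sel k u) : Bal (move σ A u) := by
  intro i
  have hA' := bk_mem_sel.1 hA
  have hsub : (A.filter fun b => u b = i) ⊆ (univ.filter fun b => u b = i) := by
    intro b hb
    exact mem_filter.2 ⟨mem_univ _, (mem_filter.1 hb).2⟩
  have hkn : k ≤ n := by
    have h0 := card_le_card hsub
    rw [hA' i, hu i] at h0
    exact h0
  have e : (univ.filter fun b => move σ A u b = i) =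
      (A.filter fun b => u b = σ.symm i) ∪
        ((univ.filter fun b => u b = i) \ (A.filter fun b => u b = i)) := by
    ext b
    by_cases hb : b ∈ A
    · have h1 : move σ A u b = σ (u b) := if_pos hb
      simp only [mem_filter, mem_univ, true_and, mem_union, Finset.mem_sdiff, h1, hb]
      rw [Equiv.eq_symm_apply]
      tauto
    · have h1 : move σ A u b = u b := if_neg hb
      simp only [mem_filter, mem_univ, true_and, mem_union, Finset.mem_sdiff, h1, hb]
      tauto
  have hdis : Disjoint (A.filter fun b => u b = σ.symm i)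
      ((univ.filter fun b => u b = i) \ (A.filter fun b => u b = i)) := by
    rw [Finset.disjoint_left]
    intro b h1 h2
    have h3 := mem_filter.1 h1
    have h4 := Finset.mem_sdiff.1 h2
    have h5 := mem_filter.1 h4.1
    exact h4.2 (mem_filter.2 ⟨h3.1, h5.2⟩)
  rw [e, card_union_of_disjoint hdis, card_sdiff_of_subset hsub, hA' , hA' i, hu i]
  omega

theorem bk_count {k : ℕ} {u : Ball d n → Fin d} (hu : Bal u) (b : Ball d n) :
    n * ((sel k u).filter fun A => b ∈ A).card = k * (sel k u).card := by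
  have hsym : ∀ b' ∈ univ.filter (fun b' => u b' = u b),
      ((sel k u).filter fun A => b' ∈ A).card = ((sel k u).filter fun A => b ∈ A).card := by
    intro b' hb1
    have hb' : u b' = u b := (mem_filter.1 hb1).2
    have hswap : ∀ c, u (Equiv.swap b b' c) = u c := by
      intro c
      by_cases h1 : c = b
      · subst h1
        rw [Equiv.swap_apply_left, hb']
      by_cases h2 : c = b'
      · subst h2
        rw [Equiv.swap_apply_right, hb']
      rw [Equiv.swap_apply_of_ne_of_ne h1 h2]
    have hmm : ∀ (A : Finset (Ball d n)) (c : Ball d n),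
        c ∈ A.map (Equiv.swap b b').toEmbedding ↔ Equiv.swap b b' c ∈ A := by
      intro A c
      rw [Finset.mem_map_equiv, Equiv.symm_swap]
    have hsel : ∀ A ∈ sel k u, A.map (Equiv.swap b b').toEmbedding ∈ sel k u := by
      intro A hA
      rw [bk_mem_sel] at hA ⊢
      intro i
      rw [← hA i, ← Finset.card_map (Equiv.swap b b').toEmbedding
        (s := A.filter fun b => u b = i)]
      have e : ((A.map (Equiv.swap b b').toEmbedding).filter fun b => u b = i) =
          (A.filter fun b => u b = i).map (Equiv.swap b b').toEmbedding := by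
        ext c
        rw [hmm, mem_filter, mem_filter, hmm, hswap]
      rw [e]
    have hinv : ∀ A : Finset (Ball d n),
        (A.map (Equiv.swap b b').toEmbedding).map (Equiv.swap b b').toEmbedding = A := by
      intro A
      ext c
      rw [hmm, hmm, Equiv.swap_apply_self]
    refine Finset.card_bij' (fun A _ => A.map (Equiv.swap b b').toEmbedding)
      (fun A _ => A.map (Equiv.swap b b').toEmbedding) ?_ ?_ ?_ ?_
    · intro A hA
      obtain ⟨h1, h2⟩ := mem_filter.1 hA
      refine mem_filter.2 ⟨hsel A h1, ?_⟩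
      rw [hmm, Equiv.swap_apply_left]
      exact h2
    · intro A hA
      obtain ⟨h1, h2⟩ := mem_filter.1 hA
      refine mem_filter.2 ⟨hsel A h1, ?_⟩
      rw [hmm, Equiv.swap_apply_right]
      exact h2
    · intro A _
      exact hinv A
    · intro A _
      exact hinv A
  have h2 : ∑ b' ∈ univ.filter (fun b' => u b' = u b),
      ((sel k u).filter fun A => b' ∈ A).card = k * (sel k u).card := by
    simp only [Finset.card_filter (fun A => _ ∈ A)]
    rw [Finset.sum_comm]
    have h3 : ∀ A ∈ sel k u,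
        (∑ b' ∈ univ.filter (fun b' => u b' = u b), if b' ∈ A then 1 else 0) = k := by
      intro A hA
      rw [← bk_mem_sel.1 hA (u b), ← Finset.card_filter]
      congr 1
      ext c
      simp only [mem_filter, mem_univ, true_and]
      tauto
    rw [Finset.sum_congr rfl h3, Finset.sum_const, smul_eq_mul, mul_comm]
  rw [Finset.sum_congr rfl hsym, Finset.sum_const, smul_eq_mul, hu (u b)] at h2
  exact h2

/-- `U` acting on a function -/
theorem bk_U_mulVec (μ : Equiv.Perm (Fin d) → ℝ) (h : Fin d → ℝ) (i : Fin d) :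
    (U μ).mulVec h i = ∑ σ, μ σ * h (σ i) := by
  simp only [Matrix.mulVec, dotProduct, U, Finset.sum_mul]
  rw [Finset.sum_comm]
  refine Finset.sum_congr rfl fun σ _ => ?_
  simp only [ite_mul, zero_mul]
  rw [Finset.sum_ite_eq univ (σ i) fun j => μ σ * h j, if_pos (mem_univ _)]

theorem bk_AU_mulVec (μ : Equiv.Perm (Fin d) → ℝ) (δ : ℝ) (h : Fin d → ℝ) (i : Fin d) :
    (AU μ δ).mulVec h i = (1 - δ) * h i + δ * ∑ σ, μ σ * h (σ i) := by
  unfold AU
  rw [Matrix.add_mulVec, Matrix.smul_mulVec, Matrix.smul_mulVec, Matrix.one_mulVec,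
    Pi.add_apply, Pi.smul_apply, Pi.smul_apply, bk_U_mulVec, smul_eq_mul, smul_eq_mul]

/-- mean of a linear statistic after one move with a given `σ` -/
theorem bk_Ts_lin {k : ℕ} (hk : k ≤ n) (hn : 1 ≤ n) {u : Ball d n → Fin d} (hu : Bal u)
    (σ : Equiv.Perm (Fin d)) (a : Ball d n → ℝ) (h : Fin d → ℝ) :
    Ts k σ (fun u => ∑ b, a b * h (u b)) u =
      ∑ b, a b * ((1 - (k : ℝ) / n) * h (u b) + (k : ℝ) / n * h (σ (u b))) := by
  have hn0 : (n : ℝ) ≠ 0 := by
    have : n ≠ 0 := by omega
    exact_mod_cast this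
  have hc : ((sel k u).card : ℝ) ≠ 0 := by
    have := (bk_sel_nonempty hk hu).card_pos
    exact_mod_cast this.ne'
  unfold Ts
  rw [Finset.sum_comm, Finset.sum_div]
  refine Finset.sum_congr rfl fun b _ => ?_
  rw [← Finset.mul_sum, mul_div_assoc]
  congr 1
  have e : ∀ A : Finset (Ball d n), h (move σ A u b) =
      h (u b) + (if b ∈ A then 1 else 0) * (h (σ (u b)) - h (u b)) := by
    intro A
    by_cases hb : b ∈ A
    · have h1 : move σ A u b = σ (u b) := if_pos hb
      rw [h1, if_pos hb]
      ring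
    · have h1 : move σ A u b = u b := if_neg hb
      rw [h1, if_neg hb]
      ring
  have hcount : (n : ℝ) * (((sel k u).filter fun A => b ∈ A).card : ℝ) =
      k * ((sel k u).card : ℝ) := by
    exact_mod_cast bk_count (k := k) hu b
  have hs : (∑ A ∈ sel k u, if b ∈ A then (1 : ℝ) else 0) =
      (((sel k u).filter fun A => b ∈ A).card : ℝ) := by
    rw [Finset.sum_boole]
  simp only [e]
  rw [Finset.sum_add_distrib, ← Finset.sum_mul, hs, Finset.sum_const, nsmul_eq_mul]
  have hq : (((sel k u).filter fun A => b ∈ A).card : ℝ) = (k : ℝ) / n * (sel k u).card := by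
    field_simp
    linarith
  rw [hq]
  field_simp
  ring

/-- mean of a linear statistic after one move -/
theorem bk_T_lin {k : ℕ} {μ : Equiv.Perm (Fin d) → ℝ} (hμ : IsProb μ) (hk : k ≤ n) (hn : 1 ≤ n)
    {u : Ball d n → Fin d} (hu : Bal u) (a : Ball d n → ℝ) (h : Fin d → ℝ) :
    T μ k (fun u => ∑ b, a b * h (u b)) u =
      ∑ b, a b * (AU μ ((k : ℝ) / n)).mulVec h (u b) := by
  unfold T
  simp only [bk_Ts_lin hk hn hu, Finset.mul_sum]
  rw [Finset.sum_comm]
  refine Finset.sum_congr rfl fun b _ => ?_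
  rw [bk_AU_mulVec]
  have e : ∀ σ : Equiv.Perm (Fin d),
      μ σ * (a b * ((1 - (k : ℝ) / n) * h (u b) + (k : ℝ) / n * h (σ (u b)))) =
        μ σ * (a b * (1 - (k : ℝ) / n) * h (u b)) + a b * ((k : ℝ) / n) * (μ σ * h (σ (u b))) := by
    intro σ
    ring
  simp only [e]
  rw [Finset.sum_add_distrib, ← Finset.sum_mul, hμ.2, ← Finset.mul_sum]
  ring

/-- `T f u` depends only on the values of `f` at balanced placements, for balanced `u` -/
theorem bk_T_congr {k : ℕ} {μ : Equiv.Perm (Fin d) → ℝ}
    {u : Ball d n → Fin d} (hu : Bal u) (f g : (Ball d n → Fin d) → ℝ)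
    (hfg : ∀ u', Bal u' → f u' = g u') : T μ k f u = T μ k g u := by
  unfold T Ts
  refine Finset.sum_congr rfl fun σ _ => ?_
  rw [Finset.sum_congr rfl fun A hA => hfg _ (bk_move_bal hu σ hA)]

theorem bk_iter_lin {k : ℕ} {μ : Equiv.Perm (Fin d) → ℝ} (hμ : IsProb μ) (hk : k ≤ n)
    (hn : 1 ≤ n) (a : Ball d n → ℝ) (h : Fin d → ℝ) (m : ℕ) :
    ∀ u : Ball d n → Fin d, Bal u → ((T μ k)^[m] (fun u => ∑ b, a b * h (u b))) u =
      ∑ b, a b * ((AU μ ((k : ℝ) / n)) ^ m).mulVec h (u b) := by
  induction m with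
  | zero =>
    intro u _
    simp only [Function.iterate_zero, id_eq, pow_zero, Matrix.one_mulVec]
  | succ m ih =>
    intro u hu
    rw [Function.iterate_succ_apply', bk_T_congr hu _ _ ih, bk_T_lin hμ hk hn hu]
    refine Finset.sum_congr rfl fun b _ => ?_
    rw [Matrix.mulVec_mulVec, ← pow_succ']

theorem bk_bal_fst : Bal (Prod.fst : Ball d n → Fin d) := by
  intro i
  have e : (univ.filter fun b : Ball d n => b.1 = i) = {i} ×ˢ (univ : Finset (Fin n)) := by
    ext b
    simp only [mem_filter, mem_univ, true_and, mem_product, mem_singleton, and_true]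
  rw [e, card_product, card_singleton, card_univ, Fintype.card_fin, one_mul]

theorem bk_b1 : S_B1 := by
  intro d n k μ hμ hk hn m a h
  exact bk_iter_lin hμ hk hn a h m Prod.fst bk_bal_fst

end Pool.Agent.H824
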