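import Pool.Agent.H867.FT.Gen2

/-!
# An integral place for `x / z ^ k` (S_PLA), helper824
-/

set_option autoImplicit false

namespace Pool.Agent.H824.FT867PLA

open Polynomial

/-- an element of degree at most three satisfies a monic cubic equation -/
theorem cubic {V L W K : Type} [CommRing V] [IsDomain V] [IsDiscreteValuationRing V] [Field L]
    [Algebra V L] [IsFractionRing V L] [CommRing W] [IsDomain W] [Algebra V W] [Field K]
    [Algebra W K] [IsFractionRing W K] [Algebra L K] [Algebra V K] [IsScalarTower V L K]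
    [IsScalarTower V W K] [IsIntegralClosure W V K] [FiniteDimensional L K]
    (hrk : Module.finrank L K = 3) (y : W) :
    ∃ p₀ p₁ p₂ : V, algebraMap V W p₀ + algebraMap V W p₁ * y + algebraMap V W p₂ * y ^ 2 + y ^ 3 = 0 := by
  have hint : IsIntegral V y := by
    have : Algebra.IsIntegral V W := IsIntegralClosure.isIntegral_algebra V K
    exact Algebra.IsIntegral.isIntegral y
  have hmon := minpoly.monic hint
  have hdeg : (minpoly V y).natDegree ≤ 3 := by
    have h1 := minpoly.isIntegrallyClosed_eq_field_fractions L K hint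
    have h2 : (minpoly V y).natDegree = (minpoly L (algebraMap W K y)).natDegree := by
      rw [h1, hmon.natDegree_map]
    rw [h2, ← hrk]
    exact minpoly.natDegree_le _
  set n := (minpoly V y).natDegree with hn
  set p : V[X] := minpoly V y * X ^ (3 - n) with hp
  have hpmon : p.Monic := hmon.mul (monic_X_pow _)
  have hpdeg : p.natDegree = 3 := by
    rw [hp, hmon.natDegree_mul (monic_X_pow _), natDegree_X_pow]
    omega
  have hp0 : aeval y p = 0 := by
    rw [hp, map_mul, minpoly.aeval, zero_mul]
  rw [aeval_eq_sum_range' (n := 4) (by omega)] at hp0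
  have h3 : p.coeff 3 = 1 := by
    have := hpmon.coeff_natDegree
    rwa [hpdeg] at this
  refine ⟨p.coeff 0, p.coeff 1, p.coeff 2, ?_⟩
  simp only [Finset.sum_range_succ, Finset.sum_range_zero, zero_add, h3, map_one, one_mul, pow_zero,
    pow_one, Algebra.smul_def, mul_one] at hp0
  exact hp0

/-- **S_PLA** -/
theorem pla : Pool.Agent.H867.FT.S_PLA := by
  intro V L W K _ _ _ _ _ _ _ _ _ _ _ _ _ _ _ _ _ _ _ π a' b' c' z ρ' k x χ hrk hπ hk ha hc hz hπz
    heq hind hχ
  -- `π` divides the last coefficient
  have hδ : π ∣ z ^ k * ρ' := Dvd.dvd.mul_right (dvd_pow hπz (by omega)) _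
  -- `x` is not a unit
  have hx : ¬ IsUnit x := by
    rintro ⟨u, hu⟩
    obtain ⟨p₀, p₁, p₂, hp⟩ := cubic (V := V) (L := L) (W := W) (K := K) hrk (↑u⁻¹ : W)
    have hxy : x * (↑u⁻¹ : W) = 1 := by
      rw [← hu]
      exact u.mul_inv
    set y : W := (↑u⁻¹ : W) with hy
    have h1 : algebraMap V W p₀ * x ^ 3 + algebraMap V W p₁ * x ^ 2 + algebraMap V W p₂ * x + 1 = 0 := by
      have e1 : x ^ 3 * (algebraMap V W p₀ + algebraMap V W p₁ * y + algebraMap V W p₂ * y ^ 2 + y ^ 3) =
          algebraMap V W p₀ * x ^ 3 + algebraMap V W p₁ * x ^ 2 * (x * y) +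
            algebraMap V W p₂ * x * (x * y) ^ 2 + (x * y) ^ 3 := by ring
      rw [hp, hxy] at e1
      simp only [mul_zero, mul_one, one_pow] at e1
      exact e1.symm
    have h2 : algebraMap V W (a' - p₀ * (z ^ k * ρ')) + algebraMap V W (a' * p₂ - p₀ * c') * x +
        algebraMap V W (a' * p₁ - p₀ * b') * x ^ 2 = 0 := by
      simp only [map_sub, map_mul] at heq ⊢
      linear_combination (algebraMap V W a') * h1 - (algebraMap V W p₀) * heq
    have h3 := congrArg (algebraMap W K) h2
    simp only [map_add, map_mul, map_pow, map_zero, ← IsScalarTower.algebraMap_apply V W K] at h3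
    simp only [IsScalarTower.algebraMap_apply V L K] at h3
    have h4 := (hind _ _ _ h3).1
    have h5 : a' - p₀ * (z ^ k * ρ') = 0 := by
      apply IsFractionRing.injective V L
      rw [h4, map_zero]
    have h6 : π ∣ a' := by
      rw [sub_eq_zero.mp h5]
      exact Dvd.dvd.mul_left hδ _
    exact hπ.not_isUnit (isUnit_of_dvd_unit h6 ha)
  obtain ⟨𝔔, hmax, hxQ⟩ := exists_max_ideal_of_mem_nonunits (a := x) (mem_nonunits_iff.mpr hx)
  have hprime : 𝔔.IsPrime := hmax.isPrime
  have hπQ : algebraMap V W π ∈ 𝔔 := by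
    have : Algebra.IsIntegral V W := IsIntegralClosure.isIntegral_algebra V K
    have h1 : (𝔔.comap (algebraMap V W)).IsMaximal :=
      Ideal.isMaximal_comap_of_isIntegral_of_isMaximal 𝔔
    have h2 := IsLocalRing.eq_maximalIdeal h1
    have h3 : π ∈ 𝔔.comap (algebraMap V W) := by
      rw [h2, IsLocalRing.mem_maximalIdeal]
      exact hπ.not_isUnit
    exact h3
  refine ⟨𝔔, algebraMap V W a' * x ^ 2 + algebraMap V W b' * x + algebraMap V W c',
    - algebraMap V W ρ', hprime, hπQ, ?_, ?_⟩
  · intro hs
    have h1 : algebraMap V W c' ∈ 𝔔 := by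
      have h2 : algebraMap V W c' = (algebraMap V W a' * x ^ 2 + algebraMap V W b' * x +
          algebraMap V W c') - (algebraMap V W a' * x + algebraMap V W b') * x := by ring
      rw [h2]
      exact 𝔔.sub_mem hs (𝔔.mul_mem_left _ hxQ)
    exact hprime.ne_top (𝔔.eq_top_of_isUnit_mem h1 (hc.map _))
  · have hzK : algebraMap V K z ^ k ≠ 0 := by
      apply pow_ne_zero
      rw [IsScalarTower.algebraMap_apply V L K]
      intro h0
      apply hz
      apply IsFractionRing.injective V L
      rw [map_zero]
      exact (map_eq_zero _).mp h0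
    apply mul_left_cancel₀ hzK
    have h1 := congrArg (algebraMap W K) heq
    simp only [map_add, map_mul, map_pow, map_zero, map_neg,
      ← IsScalarTower.algebraMap_apply V W K] at h1 ⊢
    rw [← hχ] at h1 ⊢
    linear_combination h1

end Pool.Agent.H824.FT867PLA
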